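import Pool.Agent.H83.Ue
import Pool.Agent.SRF.Stmts

/-!
# TOR on a surface over an algebraic closure of a finite field, from `SRF.Stmt_FQ`
-/

set_option autoImplicit false

namespace Pool.Agent.MID

open Pool.Agent.SRF Pool.Agent.H83

theorem tor_fq (hSUP : Stmt_SUP) (hFCH : Stmt_FCH) (hFQ : Stmt_FQ) (p : ℕ) [Fact p.Prime]
    (k F : Type) [Field k] [Field F] [Algebra k F] [CharP k p] [IsAlgClosed k] (x y : F)
    (hk : ∀ c : k, ∃ n : ℕ, 0 < n ∧ c ^ p ^ n = c) (hS : IsSurf k x y)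
    (C : PP k x y → ℤ) (D : ℕ → PP k x y → ℤ) (T : Set (PP k x y)) (hT : T.Finite)
    (hCT : ∀ O, C O ≠ 0 → O ∈ T) (hDT : ∀ n O, D n O ≠ 0 → O ∈ T)
    (hbig1 : ∀ n : ℕ, ∃ (e : ℕ) (f : F), f ≠ 0 ∧
      f ∈ L k x y (fun O => (p : ℤ) ^ e * (C O + D n O)))
    (hbig2 : ∀ n : ℕ, ∃ (e : ℕ) (f : F), f ≠ 0 ∧
      f ∈ L k x y (fun O => (p : ℤ) ^ e * (C O - D n O)))
    (I : Set ℕ) (hI : I.Infinite) :
    ∃ n ∈ I, ∃ m ∈ I, n < m ∧
      ∃ f : F, f ≠ 0 ∧ ∀ O : PP k x y, ord O.1 f = D m O - D n O := by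
  classical
  have hcF : CharP F p := charP_of_injective_algebraMap (algebraMap k F).injective p
  let v : PP k x y → F → ℤ := fun O f => ord O.1 f
  have hmul : ∀ O f g, f ≠ 0 → g ≠ 0 → v O (f * g) = v O f + v O g :=
    fun O f g hf hg => O.isOrd.mul f g hf hg
  have hsurj : ∀ O, ∃ π : F, π ≠ 0 ∧ v O π = 1 := fun O => O.isOrd.unif
  have hfin : ∀ f, f ≠ 0 → (Function.support fun O => v O f).Finite := hSUP k F x y hS
  have hroot : ∀ c : k, ∃ b : k, b ^ p = c := fun c =>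
    IsAlgClosed.exists_pow_nat_eq c (Fact.out : p.Prime).pos
  have hR : ∀ i, Pool.Agent.H83.IsFChart p (chart k x y i) := fun i =>
    ⟨(hFCH p k F x y hroot hS i).frac, (hFCH p k F x y hroot hS i).fin⟩
  have hloc : ∀ O : PP k x y, ∃ m : Fin 3, (∀ r ∈ chart k x y m, r ≠ 0 → 0 ≤ v O r) ∧
      ∀ f, f ≠ 0 → 0 ≤ v O f → ∃ a ∈ chart k x y m, ∃ b ∈ chart k x y m,
        b ≠ 0 ∧ v O b = 0 ∧ f = a / b := by
    intro O
    obtain ⟨-, i, h1, h2⟩ := O.2
    refine ⟨i, fun r hr hr0 => (O.isOrd.mem r hr0).1 (h1 hr), ?_⟩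
    intro f hf hvf
    obtain ⟨a, ha, b, hb, hb0, hbO, hab⟩ := h2 f ((O.isOrd.mem f hf).2 hvf)
    refine ⟨a, ha, b, hb, hb0, ?_, hab⟩
    have h3 : 0 ≤ ord O.1 b := (O.isOrd.mem b hb0).1 (h1 hb)
    have h4 : 0 ≤ ord O.1 b⁻¹ := (O.isOrd.mem _ (inv_ne_zero hb0)).1 hbO
    rw [O.isOrd.inv hb0] at h4
    show ord O.1 b = 0
    omega
  obtain ⟨Δ, hΔ, hue⟩ := ue_charts p v hmul hsurj hfin (fun i => chart k x y i) hR hloc
  obtain ⟨K₀, hK1, hK2⟩ := hFQ p k F x y hk hS (T ∪ Function.support Δ) (hT.union hΔ)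
  have hCΔ : (Function.support fun O => C O + Δ O).Finite := by
    refine (hT.union hΔ).subset ?_
    intro O hO
    by_contra hcon
    simp only [Set.mem_union, Function.mem_support, ne_eq, not_or, not_not] at hcon
    apply hO
    have h1 : C O = 0 := by
      by_contra h
      exact hcon.1 (hCT O h)
    show C O + Δ O = 0
    rw [h1, hcon.2]; rfl
  have hmem : ∀ (E : PP k x y → ℤ), (∀ O, E O ≠ 0 → O ∈ T) → ∀ O, E O + Δ O ≠ 0 →
      O ∈ T ∪ Function.support Δ := by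
    intro E hE O hO
    by_contra hcon
    simp only [Set.mem_union, Function.mem_support, ne_eq, not_or, not_not] at hcon
    apply hO
    have h1 : E O = 0 := by
      by_contra h
      exact hcon.1 (hE O h)
    rw [h1, hcon.2]; rfl
  refine tor_core_seq v hmul hfin (K₀ : Set F) (fun f hf g hg => K₀.mul_mem hf hg)
    (fun O => C O + Δ O) D hCΔ ?_ ?_ ?_ I hI
  · refine (hK2 (fun O => 2 * (C O + Δ O)) (hCΔ.subset ?_)).subset ?_
    · intro O hO hcon
      apply hO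
      show 2 * (C O + Δ O) = 0
      rw [show C O + Δ O = 0 from hcon, mul_zero]
    · rintro f ⟨hf1, hf2⟩
      exact ⟨Or.inr hf2.2, hf1⟩
  · intro n
    obtain ⟨e, f, hf0, hf⟩ := hbig1 n
    obtain ⟨f, hf0, hf⟩ := hue (fun O => C O + D n O) e ⟨f, hf0, hf.resolve_left hf0⟩
    obtain ⟨g, hg, hg0, hgK⟩ := hK1 (fun O => C O + D n O + Δ O)
      (hmem _ fun O hO => by
        by_contra hcon
        apply hO
        have h1 : C O = 0 := by
          by_contra h; exact hcon (hCT O h)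
        have h2 : D n O = 0 := by
          by_contra h; exact hcon (hDT n O h)
        rw [h1, h2]; rfl) f (Or.inr hf) hf0
    refine ⟨g, hgK, hg0, fun O => ?_⟩
    have := hg.resolve_left hg0 O
    simp only at this ⊢
    linarith
  · intro n
    obtain ⟨e, f, hf0, hf⟩ := hbig2 n
    obtain ⟨f, hf0, hf⟩ := hue (fun O => C O - D n O) e ⟨f, hf0, hf.resolve_left hf0⟩
    obtain ⟨g, hg, hg0, hgK⟩ := hK1 (fun O => C O - D n O + Δ O)
      (hmem _ fun O hO => by
        by_contra hcon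
        apply hO
        have h1 : C O = 0 := by
          by_contra h; exact hcon (hCT O h)
        have h2 : D n O = 0 := by
          by_contra h; exact hcon (hDT n O h)
        rw [h1, h2]; rfl) f (Or.inr hf) hf0
    refine ⟨g, hgK, hg0, fun O => ?_⟩
    have := hg.resolve_left hg0 O
    simp only at this ⊢
    linarith

end Pool.Agent.MID
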